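import Pool.Agent.V11122.Sym.Refl

set_option autoImplicit false

/-! A shortest-path triangulation of the sphere is sinkable if and only if it is floatable. -/

namespace Pool.Agent.Results.MP_731b42_co.SinkableIffFloatable

open Pool.Agent.V11122.Sink Pool.Agent.V11122.Sym

/-- For every finite graph `G` and every shortest-path triangulation `p` of the sphere with
underlying graph `G`, in general position with respect to the poles, `p` is sinkable if and only
if it is floatable. -/
theorem result : ∀ (V : Type) [Finite V] (G : SimpleGraph V) (p : V → E3),
    IsTriangulation G p → IsGeneric p → (Sinkable G p ↔ Floatable G p) :=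
  fun _ _ _ _ T gen => ⟨sink_float T gen, float_sink T gen⟩

end Pool.Agent.Results.MP_731b42_co.SinkableIffFloatable
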